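import Pool.Agent.Helper84.OV.Zero

/-!
# Packet OV-CUR (MP_57df85_nt): the curve
-/

set_option autoImplicit false

namespace Pool.Agent.Helper12.OV.CUR

open Pool.Agent.Helper84.OV
open scoped Polynomial

/-- An irreducible factor which vanishes at the point. -/
lemma exists_factor (x y : ℤ) (G : R2) (hG : G ≠ 0) (h0 : ev x y G = 0) :
    ∃ G1 T : R2, Irreducible G1 ∧ G = G1 * T ∧ ev x y G1 = 0 := by
  obtain ⟨f, hf, ha⟩ := WfDvdMonoid.exists_factors G hG
  obtain ⟨u, hu⟩ := ha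
  have h1 : ev x y f.prod = 0 := by
    have h2 : ev x y f.prod * ev x y (u : R2) = 0 := by rw [← map_mul, hu, h0]
    rcases mul_eq_zero.1 h2 with h3 | h3
    · exact h3
    · exact absurd h3 ((u.isUnit.map (ev x y)).ne_zero)
  rw [map_multiset_prod, Multiset.prod_eq_zero_iff, Multiset.mem_map] at h1
  obtain ⟨G1, hG1, h2⟩ := h1
  obtain ⟨T, hT⟩ := Multiset.dvd_prod hG1
  refine ⟨G1, T * u, hf G1 hG1, ?_, h2⟩
  rw [← mul_assoc, ← hT, hu]

theorem t : S_CUR := by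
  intro hPIG hGEL hDXD hLOW R hR
  set c : ℕ := (2 * R + 1) ^ (4 * R + 3) with hc
  have hc1 : 1 ≤ c := Nat.one_le_pow _ _ (by omega)
  set K1 : ℕ := R * c with hK1
  have hcK : c ≤ K1 := Nat.le_mul_of_pos_left _ hR
  have hK1p : 1 ≤ K1 := hc1.trans hcK
  refine ⟨K1 ^ (R ^ 2 + R) * (R + 1) ^ (2 * R + 2), ?_⟩
  intro p q hp hpq hK
  obtain ⟨G0, hG0, hd0, hX0, he0, hn0⟩ := hPIG R p q hR (by omega) hpq.le
  set H : ℕ := nrm G0 with hH
  -- the predicate
  have hex : ∃ n : ℕ, ∃ G : R2, G ≠ 0 ∧ G.natDegree ≤ n ∧ DX R G ∧ ev p q G = 0 ∧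
      nrm G ≤ K1 ^ (R - n) * H := ⟨R, G0, hG0, hd0, hX0, he0, by simp [hH]⟩
  classical
  set n := Nat.find hex with hn
  have hnR : n ≤ R := Nat.find_min' hex ⟨G0, hG0, hd0, hX0, he0, by simp [hH]⟩
  obtain ⟨G, hG, hd, hX, he, hnG⟩ := Nat.find_spec hex
  rw [← hn] at hd hnG
  have hmin : ∀ G : R2, G ≠ 0 → G.natDegree < n → DX R G → ev p q G = 0 →
      nrm G ≤ K1 ^ (R - n + 1) * H → False := by
    intro G' h1 h2 h3 h4 h5
    refine Nat.find_min hex (m := n - 1) (by omega) ⟨G', h1, by omega, h3, h4, ?_⟩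
    have h6 : R - (n - 1) = R - n + 1 := by omega
    rw [h6]
    exact h5
  obtain ⟨G1, T, hirr, hGT, he1⟩ := exists_factor p q G hG he
  have hT : T ≠ 0 := by rintro rfl; exact hG (by rw [hGT, mul_zero])
  have hG1 : G1 ≠ 0 := hirr.ne_zero
  have hX1 : DX R G1 := hDXD G1 T R hT (by rw [← hGT]; exact hX)
  have hd1 : G1.natDegree ≤ n :=
    (Polynomial.natDegree_le_of_dvd ⟨T, hGT⟩ hG).trans hd
  have hn1 : nrm G1 ≤ c * (K1 ^ (R - n) * H) := by
    have h1 := hGEL G1 T R hR hT (by rw [← hGT]; exact hX) (by rw [← hGT]; exact hd.trans hnR)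
    rw [← hGT] at h1
    exact h1.trans (Nat.mul_le_mul_left _ hnG)
  have hdeg : G1.natDegree = n := by
    by_contra hne
    refine hmin G1 hG1 (lt_of_le_of_ne hd1 hne) hX1 he1 (hn1.trans ?_)
    calc c * (K1 ^ (R - n) * H) ≤ K1 * (K1 ^ (R - n) * H) := Nat.mul_le_mul_right _ hcK
      _ = K1 ^ (R - n + 1) * H := by ring
  have hfin : nrm G1 ^ R ≤ K1 ^ (R ^ 2 + R) * (R + 1) ^ (2 * R + 2) * q ^ 2 := by
    have h1 : nrm G1 ≤ K1 ^ (R + 1) * H := by
      refine hn1.trans ?_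
      calc c * (K1 ^ (R - n) * H) ≤ K1 * (K1 ^ R * H) :=
            Nat.mul_le_mul hcK (Nat.mul_le_mul_right _ (Nat.pow_le_pow_right hK1p (Nat.sub_le _ _)))
        _ = K1 ^ (R + 1) * H := by ring
    calc nrm G1 ^ R ≤ (K1 ^ (R + 1) * H) ^ R := Nat.pow_le_pow_left h1 _
      _ = K1 ^ (R ^ 2 + R) * H ^ R := by rw [mul_pow, ← pow_mul]; congr 2; ring
      _ ≤ K1 ^ (R ^ 2 + R) * ((R + 1) ^ (2 * R + 2) * q ^ 2) := Nat.mul_le_mul_left _ hn0
      _ = _ := by ring
  rcases Nat.eq_zero_or_pos n with hn0' | hnpos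
  · -- constant in Y: excluded
    exfalso
    rw [hn0'] at hdeg
    have hC := Polynomial.eq_C_of_natDegree_eq_zero hdeg
    have hF : G1.coeff 0 ≠ 0 := by
      intro h; rw [h, map_zero] at hC; exact hG1 hC
    have hroot : (G1.coeff 0).IsRoot (p : ℤ) := by
      have h1 := he1
      rw [hC, ev_C] at h1
      exact h1
    have h2 := hLOW (G1.coeff 0) p 1 hF (by rw [pow_one]; exact Polynomial.dvd_iff_isRoot.2 hroot)
    have h3 : nrm G1 = n1 (G1.coeff 0) := by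
      conv_lhs => rw [hC, nrm_C]
    rw [pow_one, ← h3, Int.natAbs_natCast] at h2
    have h4 : p ^ R ≤ nrm G1 ^ R := Nat.pow_le_pow_left h2 _
    exact absurd (h4.trans hfin) (not_le.2 hK)
  · refine ⟨G1, hirr, by omega, by omega, hX1, he1, ?_, hfin⟩
    intro hder
    have hne : Polynomial.derivative G1 ≠ 0 := by
      intro h
      have := Polynomial.derivative_eq_zero.1 h
      omega
    refine hmin (Polynomial.derivative G1) hne ?_ hX1.deriv hder ?_
    · have := Polynomial.natDegree_derivative_le G1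
      omega
    · calc nrm (Polynomial.derivative G1) ≤ R * nrm G1 := nrm_deriv G1 R (by omega)
        _ ≤ R * (c * (K1 ^ (R - n) * H)) := Nat.mul_le_mul_left _ hn1
        _ = K1 ^ (R - n + 1) * H := by rw [pow_succ, hK1]; ring

end Pool.Agent.Helper12.OV.CUR
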