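import Pool.Agent.Helper29.OV.ApiDefs

/-!
# PACKET UWK (MP_81e84b_lc): the constant words and the exponent
-/

namespace Pool.Agent.Helper12.OV

open Pool.Agent.Helper29.OV

theorem exists_idem_pow {M : Type} [Monoid M] [Finite M] (x : M) :
    ∃ n : ℕ, 0 < n ∧ x ^ n * x ^ n = x ^ n := by
  have key : ∀ a b : ℕ, a < b → x ^ a = x ^ b → ∃ n : ℕ, 0 < n ∧ x ^ n * x ^ n = x ^ n := by
    intro a b hab h
    have step : ∀ n, a ≤ n → x ^ (n + (b - a)) = x ^ n := by
      intro n hn
      have e1 : n + (b - a) = (n - a) + b := by omega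
      have e2 : n = (n - a) + a := by omega
      rw [e1, pow_add, ← h, ← pow_add, ← e2]
    have steps : ∀ j n, a ≤ n → x ^ (n + j * (b - a)) = x ^ n := by
      intro j
      induction j with
      | zero => intro n _; simp
      | succ j ih =>
        intro n hn
        have e : n + (j + 1) * (b - a) = (n + j * (b - a)) + (b - a) := by ring
        rw [e, step _ (by omega), ih n hn]
    refine ⟨(a + 1) * (b - a), Nat.mul_pos (by omega) (by omega), ?_⟩
    rw [← pow_add]
    apply steps
    have : 1 ≤ b - a := by omega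
    nlinarith
  obtain ⟨a, b, hab, h⟩ := Finite.exists_ne_map_eq_of_infinite (fun n : ℕ => x ^ n)
  rcases lt_or_gt_of_ne hab with h1 | h1
  · exact key a b h1 h
  · exact key b a h1 h.symm

theorem exists_exponent (M : Type) [Monoid M] [Finite M] :
    ∃ N : ℕ, 0 < N ∧ ∀ x : M, x ^ N * x ^ N = x ^ N := by
  classical
  have := Fintype.ofFinite M
  choose n hn1 hn2 using fun x : M => exists_idem_pow x
  refine ⟨∏ x : M, n x, Finset.prod_pos fun x _ => hn1 x, fun x => ?_⟩
  rw [← Finset.mul_prod_erase Finset.univ n (Finset.mem_univ x), pow_mul]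
  have h : ∀ j, 0 < j → (x ^ n x) ^ j = x ^ n x := by
    intro j hj
    obtain ⟨i, rfl⟩ : ∃ i, j = i + 1 := ⟨j - 1, by omega⟩
    clear hj
    induction i with
    | zero => simp
    | succ i ih => rw [pow_succ, ih, hn2]
  rw [h _ (Finset.prod_pos fun y _ => hn1 y), hn2]

/-- every element of the finite submonoid divides `k` -/
def IsMin {M : Type} [Monoid M] (S : Submonoid M) (k : M) : Prop :=
  ∀ t ∈ S, ∃ a ∈ S, ∃ b ∈ S, a * t * b = k

theorem exists_isMin {M : Type} [Monoid M] [Finite M] (S : Submonoid M) :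
    ∃ k ∈ S, IsMin S k := by
  classical
  have := Fintype.ofFinite M
  have hmem : ∀ t, t ∈ (Finset.univ.filter fun y : M => y ∈ S).toList ↔ t ∈ S := by
    intro t
    simp
  refine ⟨(Finset.univ.filter fun y : M => y ∈ S).toList.prod,
    S.list_prod_mem fun x hx => (hmem x).1 hx, fun t ht => ?_⟩
  obtain ⟨l₁, l₂, h⟩ := List.append_of_mem ((hmem t).2 ht)
  refine ⟨l₁.prod, S.list_prod_mem fun x hx => (hmem x).1 ?_, l₂.prod,
    S.list_prod_mem fun x hx => (hmem x).1 ?_, ?_⟩
  · rw [h]
    exact List.mem_append_left _ hx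
  · rw [h]
    exact List.mem_append_right _ (List.mem_cons_of_mem _ hx)
  · rw [h, List.prod_append, List.prod_cons, mul_assoc]

theorem IsMin.mul {M : Type} [Monoid M] {S : Submonoid M} {k : M} (hk : IsMin S k) {y z : M}
    (hy : y ∈ S) (hz : z ∈ S) : IsMin S (y * k * z) := by
  intro t ht
  obtain ⟨a, ha, b, hb, h⟩ := hk t ht
  exact ⟨y * a, S.mul_mem hy ha, b * z, S.mul_mem hb hz, by rw [← h]; simp only [mul_assoc]⟩

/-- one word which contains all the values -/
theorem exists_word (M : Type) [Monoid M] [Finite M] (b : ℕ) :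
    ∃ u : List (Fin b), ∀ ν : Fin b → M, ∀ x ∈ Submonoid.closure (Set.range ν),
      ∃ y ∈ Submonoid.closure (Set.range ν), ∃ z ∈ Submonoid.closure (Set.range ν),
        (u.map ν).prod = y * x * z := by
  classical
  have := Fintype.ofFinite M
  have hw : ∀ q : (Fin b → M) × M, ∃ w : List (Fin b),
      q.2 ∈ Submonoid.closure (Set.range q.1) → (w.map q.1).prod = q.2 := by
    rintro ⟨ν, x⟩
    by_cases hx : x ∈ Submonoid.closure (Set.range ν)
    · rw [← FreeMonoid.mrange_lift] at hx
      obtain ⟨w, hw⟩ := hx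
      refine ⟨w.toList, fun _ => ?_⟩
      rw [FreeMonoid.lift_apply] at hw
      exact hw
    · exact ⟨[], fun h => absurd h hx⟩
  choose w hw using hw
  have hval : ∀ (ν : Fin b → M) (l : List (Fin b)),
      (l.map ν).prod ∈ Submonoid.closure (Set.range ν) := by
    intro ν l
    refine Submonoid.list_prod_mem _ fun x hx => Submonoid.subset_closure ?_
    obtain ⟨c, _, rfl⟩ := List.mem_map.1 hx
    exact ⟨c, rfl⟩
  refine ⟨((Finset.univ : Finset ((Fin b → M) × M)).toList.map w).flatten, fun ν x hx => ?_⟩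
  obtain ⟨l₁, l₂, h⟩ := List.append_of_mem (a := ((ν, x) : (Fin b → M) × M))
    (l := (Finset.univ : Finset ((Fin b → M) × M)).toList) (by simp)
  refine ⟨((l₁.map w).flatten.map ν).prod, hval _ _, ((l₂.map w).flatten.map ν).prod, hval _ _, ?_⟩
  rw [h, List.map_append, List.map_cons, List.flatten_append, List.flatten_cons, List.map_append,
    List.map_append, List.prod_append, List.prod_append, hw (ν, x) hx, mul_assoc]

theorem map_flatten_replicate {C : Type} {M : Type} [Monoid M] (f : C → M) (N : ℕ) (u : List C) :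
    ((List.replicate N u).flatten.map f).prod = (u.map f).prod ^ N := by
  induction N with
  | zero => simp
  | succ N ih =>
    rw [List.replicate_succ, List.flatten_cons, List.map_append, List.prod_append, ih, pow_succ']

theorem Sgen_zero {M : Type} [Monoid M] (μ : ℕ ⊕ ℕ → M) (b : ℕ) :
    Sgen μ b 0 = Submonoid.closure (Set.range fun c : Fin b => μ (Sum.inl c.val)) := by
  unfold Sgen
  congr 1
  ext x
  constructor
  · rintro (⟨c, hc, rfl⟩ | ⟨i, hi, _⟩)
    · exact ⟨⟨c, hc⟩, rfl⟩
    · omega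
  · rintro ⟨c, rfl⟩
    exact Or.inl ⟨c.val, c.isLt, rfl⟩

theorem exists_kap (M : Type) [Monoid M] [Finite M] :
    ∃ N : ℕ, 0 < N ∧ (∀ x : M, x ^ N * x ^ N = x ^ N) ∧ ∃ κ : ℕ → List (ℕ ⊕ ℕ), Kap M κ := by
  obtain ⟨N, hN, hid⟩ := exists_exponent M
  choose u hu using fun b => exists_word M b
  refine ⟨N, hN, hid, fun b => ((List.replicate N (u b)).flatten.map
    fun c : Fin b => (Sum.inl c.val : ℕ ⊕ ℕ)), fun b => ⟨fun x hx => ?_, fun μ => ?_⟩⟩
  · obtain ⟨c, _, rfl⟩ := List.mem_map.1 hx
    exact ⟨c.val, c.isLt, rfl⟩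
  · rw [Sgen_zero]
    obtain ⟨k, hk, hmin⟩ :=
      exists_isMin (Submonoid.closure (Set.range fun c : Fin b => μ (Sum.inl c.val)))
    obtain ⟨y, hy, z, hz, h⟩ := hu b (fun c : Fin b => μ (Sum.inl c.val)) k hk
    have hval : (((List.replicate N (u b)).flatten.map
        fun c : Fin b => (Sum.inl c.val : ℕ ⊕ ℕ)).map μ).prod = (y * k * z) ^ N := by
      rw [List.map_map, ← h]
      exact map_flatten_replicate _ N (u b)
    rw [hval]
    have hv : y * k * z ∈ Submonoid.closure (Set.range fun c : Fin b => μ (Sum.inl c.val)) :=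
      mul_mem (mul_mem hy hk) hz
    refine ⟨pow_mem hv N, hid _, ?_⟩
    have e : (y * k * z) ^ N = y * k * (z * (y * k * z) ^ (N - 1)) := by
      obtain ⟨i, rfl⟩ : ∃ i, N = i + 1 := ⟨N - 1, by omega⟩
      rw [Nat.add_sub_cancel, pow_succ']
      simp only [mul_assoc]
    rw [e]
    exact hmin.mul hy (mul_mem hz (pow_mem hv _))

end Pool.Agent.Helper12.OV
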